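import Pool.Agent.Helper28.HD.Defs

/-!
# MP_364488_co, module M3: uniform quasi-wideness from the density bound
-/

namespace Pool.Agent.Helper28.HD

open SimpleGraph

variable {V : Type}

/-- scattered subset after the deletion of few vertices -/
def Scat (G : SimpleGraph V) (R m s : ℕ) (A : Finset V) : Prop :=
  ∃ S : Finset V, S.card ≤ s ∧ ∃ B : Finset V, B ⊆ A ∧ Disjoint B S ∧ m ≤ B.card ∧
    ∀ a ∈ B, ∀ b ∈ B, a ≠ b → ¬ Near G ((S : Set V)ᶜ) R a b

/-- the values of `x` at the indices below `i` -/
def pre (x : ℕ → V) (i : ℕ) : Set V := {v | ∃ k < i, x k = v}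

lemma pre_update (x : ℕ → V) {i T : ℕ} (h : i ≤ T) (y : V) :
    pre (Function.update x T y) i = pre x i := by
  ext v
  constructor
  · rintro ⟨k, hk, hv⟩
    refine ⟨k, hk, ?_⟩
    rwa [Function.update_of_ne (by omega)] at hv
  · rintro ⟨k, hk, hv⟩
    refine ⟨k, hk, ?_⟩
    rwa [Function.update_of_ne (by omega)]

open Classical in
/-- `T` hubs -/
def Hub (G : SimpleGraph V) (R q T : ℕ) (A : Finset V) : Prop :=
  ∃ (x : ℕ → V) (ℓ : ℕ → ℕ) (A' : Finset V) (L : ℕ), 1 ≤ L ∧ A' ⊆ A ∧ q * L ≤ A'.card ∧
    (∀ i < T, ∀ j < T, x i = x j → i = j) ∧ (∀ i < T, 1 ≤ ℓ i ∧ ℓ i ≤ R) ∧ (∀ i < T, x i ∉ A') ∧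
    (∀ i < T, ∀ a ∈ A', Near G (pre x i)ᶜ (ℓ i) (x i) a) ∧
    (∀ i < T, ∀ y, (A'.filter (fun a => Near G (pre x i)ᶜ (ℓ i - 1) y a)).card ≤ L)

open Classical in
/-- greedy choice of a scattered subset -/
lemma exists_scattered (ρ : V → V → Prop) (A : Finset V) (f : ℕ)
    (hrefl : ∀ a ∈ A, ρ a a) (hf : ∀ a ∈ A, (A.filter (fun b => ρ a b)).card ≤ f) :
    ∃ B ⊆ A, A.card ≤ B.card * f ∧ ∀ a ∈ B, ∀ b ∈ B, a ≠ b → ¬ (ρ a b ∧ ρ b a) := by
  obtain ⟨Ok, hOk⟩ : ∃ Ok : Finset V → Prop, ∀ B, Ok B ↔
      (B ⊆ A ∧ ∀ a ∈ B, ∀ b ∈ B, a ≠ b → ¬ (ρ a b ∧ ρ b a)) := ⟨_, fun _ => Iff.rfl⟩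
  have hne : (A.powerset.filter Ok).Nonempty :=
    ⟨∅, Finset.mem_filter.mpr ⟨Finset.empty_mem_powerset A, (hOk _).mpr ⟨by simp, by simp⟩⟩⟩
  obtain ⟨B, hB, hmax⟩ := (A.powerset.filter Ok).exists_max_image Finset.card hne
  replace hB := (hOk B).mp (Finset.mem_filter.mp hB).2
  refine ⟨B, hB.1, ?_, hB.2⟩
  have hsub : A ⊆ B.biUnion (fun b => A.filter (fun a => ρ b a)) := by
    intro a ha
    rw [Finset.mem_biUnion]
    by_cases haB : a ∈ B
    · exact ⟨a, haB, Finset.mem_filter.mpr ⟨ha, hrefl a ha⟩⟩
    · by_contra hcon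
      push Not at hcon
      have h1 : insert a B ∈ A.powerset.filter Ok := by
        rw [Finset.mem_filter, Finset.mem_powerset, hOk]
        refine ⟨Finset.insert_subset ha hB.1, Finset.insert_subset ha hB.1, ?_⟩
        intro u hu v hv huv
        rw [Finset.mem_insert] at hu hv
        rcases hu with rfl | hu
        · rcases hv with rfl | hv
          · exact absurd rfl huv
          · rintro ⟨-, h2⟩
            exact hcon v hv (Finset.mem_filter.mpr ⟨ha, h2⟩)
        · rcases hv with rfl | hv
          · rintro ⟨h2, -⟩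
            exact hcon u hu (Finset.mem_filter.mpr ⟨ha, h2⟩)
          · exact hB.2 u hu v hv huv
      have h2 := hmax _ h1
      rw [Finset.card_insert_of_notMem haB] at h2
      omega
  calc A.card ≤ (B.biUnion (fun b => A.filter (fun a => ρ b a))).card := Finset.card_le_card hsub
    _ ≤ B.card * f := Finset.card_biUnion_le_card_mul _ _ _ fun b hb => hf b (hB.1 hb)

theorem hub (R : ℕ) : ∀ T m q : ℕ, 1 ≤ m → 1 ≤ q → ∃ N, ∀ (V : Type) (G : SimpleGraph V)
    (A : Finset V), N ≤ A.card → Scat G R m T A ∨ Hub G R q T A := by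
  classical
  intro T
  induction T with
  | zero =>
    intro m q _ hq
    refine ⟨q, fun V G A hA => Or.inr ?_⟩
    have hne : A.Nonempty := Finset.card_pos.mp (by omega)
    obtain ⟨a, -⟩ := hne
    exact ⟨fun _ => a, fun _ => 0, A, 1, le_rfl, subset_rfl, by omega, by simp, by simp,
      by simp, by simp, by simp⟩
  | succ T ih =>
    intro m q hm hq
    have hq0 : 1 ≤ m * q ^ R := Nat.mul_pos hm (Nat.pow_pos hq)
    obtain ⟨N, hN⟩ := ih m (m * q ^ R) hm hq0
    refine ⟨N, fun V G A hA => ?_⟩
    rcases hN V G A hA with h | h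
    · left
      obtain ⟨S, hS, h⟩ := h
      exact ⟨S, by omega, h⟩
    obtain ⟨x, ℓ, A', L, hL, hA', hcard, hinj, hℓ, hxA, hnear, hfew⟩ := h
    set M : Set V := (pre x T)ᶜ with hM
    -- the hubs as a finset
    set S : Finset V := (Finset.range T).image x with hS
    have hSM : ((S : Set V)ᶜ) = M := by
      rw [hM]; congr 1
      ext v
      simp [hS, pre]
    have hScard : S.card ≤ T := by
      calc S.card ≤ (Finset.range T).card := Finset.card_image_le
        _ = T := Finset.card_range T
    have hSA : Disjoint A' S := by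
      rw [Finset.disjoint_right]
      intro v hv
      rw [hS, Finset.mem_image] at hv
      obtain ⟨k, hk, rfl⟩ := hv
      exact hxA k (Finset.mem_range.mp hk)
    by_cases hex : ∃ l, l ≤ R ∧ ∃ y, L * q ^ l < (A'.filter (fun a => Near G M l y a)).card
    · right
      set l := Nat.find hex with hl
      obtain ⟨hlR, y, hy⟩ := Nat.find_spec hex
      have hmin : ∀ l' < l, ∀ y, (A'.filter (fun a => Near G M l' y a)).card ≤ L * q ^ l' := by
        intro l' hl' y
        have h1 := Nat.find_min hex hl'
        push Not at h1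
        exact h1 (by omega) y
      rw [← hl] at hlR hy
      have hl1 : 1 ≤ l := by
        by_contra h0
        have h0' : l = 0 := by omega
        rw [h0'] at hy
        have h2 : (A'.filter (fun a => Near G M 0 y a)).card ≤ 1 := by
          apply Finset.card_le_one.mpr
          intro a ha b hb
          rw [Finset.mem_filter, near_zero] at ha hb
          rw [← ha.2.1, ← hb.2.1]
        simp only [pow_zero, mul_one] at hy
        omega
      set A'' := (A'.filter (fun a => Near G M l y a)).erase y with hA''
      have hsub : A'' ⊆ A' := (Finset.erase_subset _ _).trans (Finset.filter_subset _ _)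
      have hyM : y ∈ M := by
        have hne : (A'.filter (fun a => Near G M l y a)).Nonempty :=
          Finset.card_pos.mp (lt_of_le_of_lt (Nat.zero_le _) hy)
        obtain ⟨a, ha⟩ := hne
        exact (Finset.mem_filter.mp ha).2.left_mem
      have hyx : ∀ k < T, x k ≠ y := fun k hk h => hyM ⟨k, hk, h⟩
      have hcard'' : q * (L * q ^ (l - 1)) ≤ A''.card := by
        have h1 : (A'.filter (fun a => Near G M l y a)).card - 1 ≤ A''.card :=
          Finset.pred_card_le_card_erase
        have h2 : q * (L * q ^ (l - 1)) = L * q ^ l := by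
          obtain ⟨l', hl'⟩ : ∃ l', l = l' + 1 := ⟨l - 1, by omega⟩
          rw [hl', Nat.add_sub_cancel, pow_succ]; ring
        rw [h2]; omega
      have hupd : ∀ i < T, Function.update x T y i = x i := fun i hi =>
        Function.update_of_ne (by omega) _ _
      have hupdl : ∀ i < T, Function.update ℓ T l i = ℓ i := fun i hi =>
        Function.update_of_ne (by omega) _ _
      have hLL : L ≤ L * q ^ (l - 1) := Nat.le_mul_of_pos_right _ (Nat.pow_pos hq)
      refine ⟨Function.update x T y, Function.update ℓ T l, A'', L * q ^ (l - 1), ?_,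
        hsub.trans hA', hcard'', ?_, ?_, ?_, ?_, ?_⟩
      · omega
      · intro i hi j hj hij
        rcases Nat.lt_succ_iff_lt_or_eq.mp hi with hi | rfl
        · rcases Nat.lt_succ_iff_lt_or_eq.mp hj with hj | rfl
          · rw [hupd i hi, hupd j hj] at hij
            exact hinj i hi j hj hij
          · rw [hupd i hi, Function.update_self] at hij
            exact absurd hij (hyx i hi)
        · rcases Nat.lt_succ_iff_lt_or_eq.mp hj with hj | rfl
          · rw [hupd j hj, Function.update_self] at hij
            exact absurd hij.symm (hyx j hj)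
          · rfl
      · intro i hi
        rcases Nat.lt_succ_iff_lt_or_eq.mp hi with hi | rfl
        · rw [hupdl i hi]; exact hℓ i hi
        · rw [Function.update_self]; exact ⟨hl1, hlR⟩
      · intro i hi
        rcases Nat.lt_succ_iff_lt_or_eq.mp hi with hi | rfl
        · rw [hupd i hi]; exact fun h => hxA i hi (hsub h)
        · rw [Function.update_self, hA'']; exact Finset.notMem_erase _ _
      · intro i hi a ha
        rw [pre_update x (Nat.lt_succ_iff.mp hi)]
        rcases Nat.lt_succ_iff_lt_or_eq.mp hi with hi | rfl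
        · rw [hupd i hi, hupdl i hi]; exact hnear i hi a (hsub ha)
        · rw [Function.update_self, Function.update_self]
          exact (Finset.mem_filter.mp (Finset.mem_of_mem_erase ha)).2
      · intro i hi z
        rw [pre_update x (Nat.lt_succ_iff.mp hi)]
        rcases Nat.lt_succ_iff_lt_or_eq.mp hi with hi | rfl
        · rw [hupdl i hi]
          exact ((Finset.card_le_card (Finset.filter_subset_filter _ hsub)).trans
            (hfew i hi z)).trans hLL
        · rw [Function.update_self]
          exact (Finset.card_le_card (Finset.filter_subset_filter _ hsub)).trans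
            (hmin (l - 1) (by omega) z)
    · left
      push Not at hex
      have hR := hex R le_rfl
      have hAM : ∀ a ∈ A', a ∈ M := by
        intro a ha
        rw [← hSM]
        simp only [Set.mem_compl_iff, Finset.mem_coe]
        exact Finset.disjoint_left.mp hSA ha
      obtain ⟨B, hBA, hBc, hB⟩ := exists_scattered (fun a b => Near G M R a b) A' (L * q ^ R)
        (fun a ha => near_refl (hAM a ha)) (fun a _ => hR a)
      refine ⟨S, by omega, B, hBA.trans hA', hSA.mono_left hBA, ?_, ?_⟩
      · have h1 : m * (L * q ^ R) ≤ B.card * (L * q ^ R) := by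
          calc m * (L * q ^ R) = m * q ^ R * L := by ring
            _ ≤ A'.card := hcard
            _ ≤ _ := hBc
        exact Nat.le_of_mul_le_mul_right h1 (Nat.mul_pos hL (Nat.pow_pos hq))
      · intro a ha b hb hab
        rw [hSM]
        intro h
        exact hB a ha b hb hab ⟨h, h.symm⟩

/-- pairs `i < j < T`, as `⟨j, i⟩` -/
def prs (T : ℕ) : Finset (Σ _ : ℕ, ℕ) := (Finset.range T).sigma fun j => Finset.range j

lemma mem_prs {T : ℕ} {e : Σ _ : ℕ, ℕ} : e ∈ prs T ↔ e.1 < T ∧ e.2 < e.1 := by
  simp [prs]

lemma card_prs (T : ℕ) : (prs T).card * 2 = T * (T - 1) := by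
  rw [prs, Finset.card_sigma]
  simp only [Finset.card_range]
  exact Finset.sum_range_id_mul_two T

/-- a family of internally disjoint paths between the hubs -/
def Good (G : SimpleGraph V) (R T : ℕ) (x : ℕ → V) (E : Finset (Σ _ : ℕ, ℕ)) : Prop :=
  ∃ (P : (Σ _ : ℕ, ℕ) → ℕ → V) (len : (Σ _ : ℕ, ℕ) → ℕ),
    (∀ e ∈ E, 1 ≤ len e ∧ len e ≤ 2 * R) ∧
    (∀ e ∈ E, P e 0 = x e.1 ∧ P e (len e) = x e.2) ∧
    (∀ e ∈ E, ∀ l < len e, G.Adj (P e l) (P e (l + 1))) ∧
    (∀ e ∈ E, ∀ l, 1 ≤ l → l < len e → ∀ k < T, P e l ≠ x k) ∧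
    (∀ e ∈ E, ∀ e' ∈ E, ∀ l l', 1 ≤ l → l < len e → 1 ≤ l' → l' < len e' →
      P e l = P e' l' → e = e' ∧ l = l')

/-- a vertex of a walk different from its start is nearer to the end -/
lemma near_pred {G : SimpleGraph V} {M : Set V} {k : ℕ} {u v z : V} (p : G.Walk u v)
    (hp : p.length ≤ k) (hM : ∀ w ∈ p.support, w ∈ M) (hz : z ∈ p.support) (hzu : z ≠ u) :
    Near G M (k - 1) z v := by
  classical
  refine ⟨p.dropUntil z hz, ?_, fun w hw => hM w (p.support_dropUntil_subset_support hz hw)⟩
  have h1 := congrArg Walk.length (p.take_spec hz)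
  simp only [Walk.length_append] at h1
  have h2 : 0 < (p.takeUntil z hz).length := by
    rcases Nat.eq_zero_or_pos (p.takeUntil z hz).length with h | h
    · exact absurd (Walk.eq_of_length_eq_zero h).symm hzu
    · exact h
  omega

theorem good_of_hub {G : SimpleGraph V} {R q T : ℕ} {A : Finset V}
    (hq : 2 * (T + T * T * (2 * R + 1)) < q) (h : Hub G R q T A) :
    ∃ x : ℕ → V, (∀ i < T, ∀ j < T, x i = x j → i = j) ∧ Good G R T x (prs T) := by
  classical
  obtain ⟨x, ℓ, A', L, hL, hA', hcard, hinj, hℓ, hxA, hnear, hfew⟩ := h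
  refine ⟨x, hinj, ?_⟩
  suffices hE : ∀ E : Finset (Σ _ : ℕ, ℕ), E ⊆ prs T → Good G R T x E from hE _ subset_rfl
  intro E
  induction E using Finset.induction_on with
  | empty =>
    intro _
    exact ⟨fun _ => x, fun _ => 0, by simp, by simp, by simp, by simp, by simp⟩
  | insert e₀ E he₀ ih =>
    intro hsub
    obtain ⟨P, len, h1, h2, h3, h4, h5⟩ := ih ((Finset.subset_insert _ _).trans hsub)
    have he₀' := mem_prs.mp (hsub (Finset.mem_insert_self _ _))
    set i := e₀.1 with hi
    set j := e₀.2 with hj
    have hiT : i < T := he₀'.1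
    have hjT : j < T := by omega
    set Q : Finset V := (Finset.range T).image x ∪
      E.biUnion (fun e => (Finset.range (2 * R + 1)).image (P e)) with hQ
    have hEcard : E.card ≤ T * T := by
      have hE : E ⊆ prs T := (Finset.subset_insert _ _).trans hsub
      have := Finset.card_le_card hE
      have h6 := card_prs T
      have h7 : T * (T - 1) ≤ T * T := Nat.mul_le_mul_left _ (Nat.sub_le _ _)
      omega
    have hQcard : Q.card ≤ T + T * T * (2 * R + 1) := by
      calc Q.card ≤ ((Finset.range T).image x).card +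
            (E.biUnion (fun e => (Finset.range (2 * R + 1)).image (P e))).card :=
              Finset.card_union_le _ _
        _ ≤ T + E.card * (2 * R + 1) := by
            apply Nat.add_le_add
            · exact Finset.card_image_le.trans (Finset.card_range T).le
            · apply Finset.card_biUnion_le_card_mul
              intro e _
              exact Finset.card_image_le.trans (Finset.card_range _).le
        _ ≤ _ := by
            apply Nat.add_le_add_left
            exact Nat.mul_le_mul_right _ hEcard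
    -- a good vertex
    set bad : Finset V :=
      (Q.biUnion fun y => A'.filter (fun a => Near G (pre x i)ᶜ (ℓ i - 1) y a)) ∪
      (Q.biUnion fun y => A'.filter (fun a => Near G (pre x j)ᶜ (ℓ j - 1) y a)) with hbad
    have hbadcard : bad.card < A'.card := by
      calc bad.card ≤ Q.card * L + Q.card * L := by
            refine (Finset.card_union_le _ _).trans (Nat.add_le_add ?_ ?_)
            · exact Finset.card_biUnion_le_card_mul _ _ _ fun y _ => hfew i hiT y
            · exact Finset.card_biUnion_le_card_mul _ _ _ fun y _ => hfew j hjT y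
        _ = 2 * Q.card * L := by ring
        _ < q * L := by
            apply Nat.mul_lt_mul_of_pos_right _ hL
            omega
        _ ≤ A'.card := hcard
    obtain ⟨a, haA, hab⟩ : ∃ a ∈ A', a ∉ bad := by
      by_contra hcon
      push Not at hcon
      exact absurd (Finset.card_le_card (show A' ⊆ bad from hcon)) (by omega)
    have hgood : ∀ y ∈ Q, ¬ Near G (pre x i)ᶜ (ℓ i - 1) y a ∧ ¬ Near G (pre x j)ᶜ (ℓ j - 1) y a := by
      intro y hy
      constructor
      · intro hn
        apply hab
        rw [hbad, Finset.mem_union]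
        left
        exact Finset.mem_biUnion.mpr ⟨y, hy, Finset.mem_filter.mpr ⟨haA, hn⟩⟩
      · intro hn
        apply hab
        rw [hbad, Finset.mem_union]
        right
        exact Finset.mem_biUnion.mpr ⟨y, hy, Finset.mem_filter.mpr ⟨haA, hn⟩⟩
    obtain ⟨p, hp, hpM⟩ := hnear i hiT a haA
    obtain ⟨p', hp', hpM'⟩ := hnear j hjT a haA
    have hpQ : ∀ z ∈ p.support, z ≠ x i → z ∉ Q := fun z hz hne hzQ =>
      (hgood z hzQ).1 (near_pred p hp hpM hz hne)
    have hpQ' : ∀ z ∈ p'.support, z ≠ x j → z ∉ Q := fun z hz hne hzQ =>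
      (hgood z hzQ).2 (near_pred p' hp' hpM' hz hne)
    set w := (p.append p'.reverse).bypass with hw
    have hwp : w.IsPath := Walk.bypass_isPath _
    have hwlen : w.length ≤ 2 * R := by
      have h6 := Walk.length_bypass_le_length (p.append p'.reverse)
      rw [Walk.length_append, Walk.length_reverse, ← hw] at h6
      have h7 := (hℓ i hiT).2
      have h8 := (hℓ j hjT).2
      omega
    have hxij : x i ≠ x j := fun h => by
      have := hinj i hiT j hjT h
      omega
    have hw1 : 1 ≤ w.length := by
      rcases Nat.eq_zero_or_pos w.length with h | h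
      · exact absurd (Walk.eq_of_length_eq_zero h) hxij
      · exact h
    have hwQ : ∀ z ∈ w.support, z ≠ x i → z ≠ x j → z ∉ Q := by
      intro z hz hzi hzj
      have h6 := Walk.support_bypass_subset_support _ hz
      rw [Walk.mem_support_append_iff] at h6
      rcases h6 with h6 | h6
      · exact hpQ z h6 hzi
      · rw [Walk.support_reverse, List.mem_reverse] at h6
        exact hpQ' z h6 hzj
    have hinner : ∀ l, 1 ≤ l → l < w.length → w.getVert l ∉ Q := by
      intro l hl1 hl2
      apply hwQ _ (w.getVert_mem_support l)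
      · intro h
        have h6 : w.getVert l = w.getVert 0 := by rw [h, Walk.getVert_zero]
        have := hwp.getVert_injOn (show l ∈ {i | i ≤ w.length} from hl2.le)
          (show 0 ∈ {i | i ≤ w.length} from Nat.zero_le _) h6
        omega
      · intro h
        have h6 : w.getVert l = w.getVert w.length := by rw [h, Walk.getVert_length]
        have := hwp.getVert_injOn (show l ∈ {i | i ≤ w.length} from hl2.le)
          (le_refl w.length : w.length ≤ w.length) h6
        omega
    have hne : ∀ e ∈ E, e ≠ e₀ := fun e he h => he₀ (h ▸ he)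
    have uP : ∀ e ∈ E, Function.update P e₀ w.getVert e = P e := fun e he =>
      Function.update_of_ne (hne e he) _ _
    have ul : ∀ e ∈ E, Function.update len e₀ w.length e = len e := fun e he =>
      Function.update_of_ne (hne e he) _ _
    have hPQ : ∀ e ∈ E, ∀ l < len e, P e l ∈ Q := by
      intro e he l hl
      rw [hQ, Finset.mem_union]
      right
      refine Finset.mem_biUnion.mpr ⟨e, he, Finset.mem_image.mpr ⟨l, ?_, rfl⟩⟩
      have := (h1 e he).2
      rw [Finset.mem_range]; omega
    refine ⟨Function.update P e₀ w.getVert, Function.update len e₀ w.length, ?_, ?_, ?_, ?_, ?_⟩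
    · intro e he
      rcases Finset.mem_insert.mp he with rfl | he
      · rw [Function.update_self]; exact ⟨hw1, hwlen⟩
      · rw [ul e he]; exact h1 e he
    · intro e he
      rcases Finset.mem_insert.mp he with rfl | he
      · rw [Function.update_self, Function.update_self]
        exact ⟨Walk.getVert_zero _, Walk.getVert_length _⟩
      · rw [ul e he, uP e he]; exact h2 e he
    · intro e he
      rcases Finset.mem_insert.mp he with rfl | he
      · rw [Function.update_self, Function.update_self]
        exact fun l hl => w.adj_getVert_succ hl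
      · rw [ul e he, uP e he]; exact h3 e he
    · intro e he
      rcases Finset.mem_insert.mp he with rfl | he
      · rw [Function.update_self, Function.update_self]
        intro l hl1 hl2 k hk h
        apply hinner l hl1 hl2
        rw [h, hQ, Finset.mem_union]
        left
        exact Finset.mem_image.mpr ⟨k, Finset.mem_range.mpr hk, rfl⟩
      · rw [ul e he, uP e he]; exact h4 e he
    · intro e he e' he'
      rcases Finset.mem_insert.mp he with hee | heE
      · rcases Finset.mem_insert.mp he' with hee' | heE'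
        · rw [hee, hee', Function.update_self, Function.update_self]
          intro l l' hl1 hl2 hl1' hl2' h
          exact ⟨rfl, hwp.getVert_injOn (show l ∈ {i | i ≤ w.length} from hl2.le)
            (show l' ∈ {i | i ≤ w.length} from hl2'.le) h⟩
        · rw [hee, Function.update_self, Function.update_self, ul e' heE', uP e' heE']
          intro l l' hl1 hl2 hl1' hl2' h
          exact absurd (h ▸ hPQ e' heE' l' hl2') (hinner l hl1 hl2)
      · rcases Finset.mem_insert.mp he' with hee' | heE'
        · rw [hee', Function.update_self, Function.update_self, ul e heE, uP e heE]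
          intro l l' hl1 hl2 hl1' hl2' h
          exact absurd (h ▸ hPQ e heE l hl2) (hinner l' hl1' hl2')
        · rw [ul e heE, uP e heE, ul e' heE', uP e' heE']
          exact h5 e heE e' heE'

theorem uqw (t : ℕ → ℕ) (h : DenBound t) : UQW t := by
  classical
  intro R
  choose c hc using h 2 (by norm_num)
  set C : ℕ := (Finset.range (2 * R)).sup c with hC
  set T : ℕ := 16 * R ^ 2 * C + 3 with hT
  refine ⟨T, fun m => ?_⟩
  obtain ⟨N, hN⟩ := hub R T (m + 1) (2 * (T + T * T * (2 * R + 1)) + 1) (by omega) (by omega)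
  refine ⟨N, fun V G hG A hA => ?_⟩
  rcases hN V G A hA with h1 | h1
  · obtain ⟨S, hS, B, hB, hd, hm, hsc⟩ := h1
    exact ⟨S, hS, B, hB, hd, by omega, hsc⟩
  exfalso
  obtain ⟨x, hinj, P, len, k1, k2, k3, k4, k5⟩ := good_of_hub (by omega) h1
  set X : Finset V := (Finset.range T).image x with hX
  have hXcard : X.card = T := by
    rw [hX, Finset.card_image_of_injOn, Finset.card_range]
    intro a ha b hb hab
    exact hinj a (Finset.mem_range.mp (Finset.mem_coe.mp ha)) b
      (Finset.mem_range.mp (Finset.mem_coe.mp hb)) hab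
  have hXmem : ∀ k < T, x k ∈ X := fun k hk =>
    Finset.mem_image.mpr ⟨k, Finset.mem_range.mpr hk, rfl⟩
  -- each length class is small
  have hcls : ∀ l ∈ Finset.Icc 1 (2 * R),
      ((prs T).filter (fun e => len e = l)).card ^ 2 ≤ C * T ^ 3 := by
    intro l hl
    rw [Finset.mem_Icc] at hl
    obtain ⟨s, rfl⟩ : ∃ s, l = s + 1 := ⟨l - 1, by omega⟩
    set F := (prs T).filter (fun e => len e = s + 1) with hF
    have hFm : ∀ e : {e // e ∈ F}, e.1 ∈ prs T ∧ len e.1 = s + 1 := fun e =>
      Finset.mem_filter.mp e.2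
    have hfam : IsFam G s (X : Set V) (fun e : {e // e ∈ F} => P e.1) := by
      constructor
      · intro e
        obtain ⟨he, hl⟩ := hFm e
        have he' := mem_prs.mp he
        change P e.1 0 ∈ (X : Set V)
        rw [(k2 _ he).1]
        exact hXmem _ he'.1
      · intro e
        obtain ⟨he, hl⟩ := hFm e
        have he' := mem_prs.mp he
        change P e.1 (s + 1) ∈ (X : Set V)
        rw [← hl, (k2 _ he).2]
        exact hXmem _ (by omega)
      · intro e
        obtain ⟨he, hl⟩ := hFm e
        have he' := mem_prs.mp he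
        change P e.1 0 ≠ P e.1 (s + 1)
        rw [← hl, (k2 _ he).1, (k2 _ he).2]
        intro h
        have := hinj _ he'.1 _ (by omega) h
        omega
      · intro e l hl
        obtain ⟨he, hl'⟩ := hFm e
        exact k3 _ he l (by omega)
      · intro e l hl1 hl2 hmem
        obtain ⟨he, hl'⟩ := hFm e
        obtain ⟨k, hk, hk'⟩ := Finset.mem_image.mp (Finset.mem_coe.mp hmem)
        exact k4 _ he l hl1 (by omega) k (Finset.mem_range.mp hk) hk'.symm
      · intro e e' l l' a1 a2 a3 a4 h
        obtain ⟨he, hl⟩ := hFm e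
        obtain ⟨he', hl'⟩ := hFm e'
        obtain ⟨b1, b2⟩ := k5 _ he _ he' l l' a1 (by omega) a3 (by omega) h
        exact ⟨Subtype.ext b1, b2⟩
      · intro e e' hne h
        obtain ⟨he, hl⟩ := hFm e
        obtain ⟨he', hl'⟩ := hFm e'
        have m1 := mem_prs.mp he
        have m2 := mem_prs.mp he'
        apply hne
        have e1 : P e.1 (s + 1) = x e.1.2 := by rw [← hl]; exact (k2 _ he).2
        have e2 : P e'.1 (s + 1) = x e'.1.2 := by rw [← hl']; exact (k2 _ he').2
        simp only [e1, e2, (k2 _ he).1, (k2 _ he').1, Sym2.eq_iff] at h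
        apply Subtype.ext
        rcases h with ⟨h, h'⟩ | ⟨h, h'⟩
        · have n1 := hinj _ m1.1 _ m2.1 h
          have n2 := hinj _ (by omega) _ (by omega) h'
          exact Sigma.ext n1 (heq_of_eq n2)
        · have n1 := hinj _ m1.1 _ (by omega) h
          have n2 := hinj _ (by omega) _ m2.1 h'
          omega
    have h2 := hc s V G hG X {e // e ∈ F} _ hfam
    rw [Fintype.card_coe, hXcard] at h2
    have h3 : c s ≤ C := Finset.le_sup (Finset.mem_range.mpr (by omega))
    exact h2.trans (Nat.mul_le_mul_right _ h3)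
  have hsum : (prs T).card = ∑ l ∈ Finset.Icc 1 (2 * R), ((prs T).filter (fun e => len e = l)).card :=
    Finset.card_eq_sum_card_fiberwise fun e he => by
      have := k1 e he
      exact Finset.mem_coe.mpr (Finset.mem_Icc.mpr this)
  have hcs : (prs T).card ^ 2 ≤ (2 * R) ^ 2 * (C * T ^ 3) := by
    rw [hsum]
    refine (sq_sum_le_card_mul_sum_sq).trans ?_
    rw [Nat.card_Icc, Nat.add_sub_cancel, sq (2 * R), mul_assoc]
    apply Nat.mul_le_mul_left
    refine (Finset.sum_le_card_nsmul _ _ _ hcls).trans ?_
    rw [Nat.card_Icc, Nat.add_sub_cancel, smul_eq_mul]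
  have hp := card_prs T
  -- contradiction
  obtain ⟨T', hT'⟩ : ∃ T', T = T' + 1 := ⟨T - 1, by omega⟩
  have h4 : T ^ 2 * (T - 1) ^ 2 ≤ T ^ 2 * (16 * R ^ 2 * C * T) := by
    calc T ^ 2 * (T - 1) ^ 2 = (T * (T - 1)) ^ 2 := by ring
      _ = 4 * (prs T).card ^ 2 := by rw [← hp]; ring
      _ ≤ 4 * ((2 * R) ^ 2 * (C * T ^ 3)) := Nat.mul_le_mul_left _ hcs
      _ = T ^ 2 * (16 * R ^ 2 * C * T) := by ring
  have h5 := Nat.le_of_mul_le_mul_left h4 (by positivity)
  have h6 : T - 1 = 16 * R ^ 2 * C + 2 := by omega
  rw [h6, hT] at h5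
  nlinarith

end Pool.Agent.Helper28.HD
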